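import Mathlib

/-!
# Groups with cofinite Zariski topology: equations with one constant are laws

Let `G` be an infinite nonabelian group in which every elementary algebraic subset is finite or all of `G`.
1. Centralizers of noncentral elements are algebraic, so finite; so the centre is finite, a noncentral
  `g` has finite order `m`, and its conjugacy class is infinite. The class is contained in the algebraic set
  `{x | x ^ m = 1}`, which is therefore all of `G`. So all noncentral elements have the same order, for a prime
  `p` dividing it all `p`-th powers are central, and as `G` is the union of the finitely many algebraic sets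
  `{x | x ^ p = z}`, `z` central, one of them is `G`, that of `z = 1`.
2. `p = 2` is impossible, and so is `p = 3`, where elements commute with their conjugates.
3. Let `a` be noncentral and `w(a, x) = 1` for infinitely many `x`, so for all `x`. For `x = z b z⁻¹` we obtain
  `w(z⁻¹ a z, b) = 1` for all `z`. So the algebraic set `{y | w(y, b) = 1}` contains the conjugacy class of
  `a` and is `G`: `w` is a law.
4. `x ↦ [x, a]` has finite fibres if `a` is noncentral, and so has each iterate, so no Engel condition is a
  law, and the relatively free group of rank two is infinite. Two words `v, w` in several letters which are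
  not laws are nontrivial at a common point (change the letters one by one). So for a word `s(y, x)` not
  equal to `s(y, 1)` there are `y` with infinitely many values `s(y, x)` and with `w(y, x) ≠ 1` for some `x`.
5. `G / Z(G)` has trivial centre and cofinite Zariski topology. If `G` has trivial centre and `g ≠ 1`,
  choose for each `c ≠ 1` of the finite group `C(g)` an element `y c` which does not commute with `c`. The group
  generated by `g` and the `y c` is infinite: otherwise it is a finite `p`-group and its centre contains some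
  `c ≠ 1`, which is in `C(g)` and commutes with `y c`.
-/

set_option autoImplicit false

namespace Pool.Agent.Results.MP_762844_al.PrimeExponentReduction

universe u

/-- Every elementary algebraic subset of `G` is finite or all of `G`: the Zariski topology of `G` is the
cofinite topology. -/
def CofiniteZariski (G : Type u) [Group G] : Prop :=
  ∀ l : List (G × ℤ),
    Set.Finite {a : G | (l.map (fun p => p.1 * a ^ p.2)).prod = 1} ∨
      {a : G | (l.map (fun p => p.1 * a ^ p.2)).prod = 1} = Set.univ

/-- The iterated commutator `[x, a, ..., a]` (`c` times `a`). -/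
def eng {G : Type u} [Group G] (a : G) (c : ℕ) (x : G) : G := (fun y => y * a * y⁻¹ * a⁻¹)^[c] x

/-- Only the equations `x g = g x` and `x ^ n = g`. -/
structure HH (G : Type u) [Group G] : Prop where
  comm : ∀ g : G, {x : G | x * g = g * x}.Finite ∨ ∀ x, x * g = g * x
  pow : ∀ (n : ℕ) (g : G), {x : G | x ^ n = g}.Finite ∨ ∀ x, x ^ n = g

theorem hh_of {G : Type u} [Group G] (h : CofiniteZariski G) : HH G := by
  constructor
  · intro g
    have key : {a : G | (([(g, 1), (g⁻¹, -1)] : List (G × ℤ)).map (fun p => p.1 * a ^ p.2)).prod = 1}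
        = {x : G | x * g = g * x} := by
      ext x
      simp only [List.map_cons, List.map_nil, List.prod_cons, List.prod_nil, Set.mem_ofPred_eq,
        zpow_one, zpow_neg, mul_one]
      constructor
      · intro hx
        have : g * x = x * g := by
          have h2 : g * x * (x * g)⁻¹ = 1 := by rw [mul_inv_rev]; exact hx
          exact mul_inv_eq_one.mp h2
        exact this.symm
      · intro hx
        have h2 : g * x * (x * g)⁻¹ = 1 := mul_inv_eq_one.mpr hx.symm
        rw [mul_inv_rev] at h2
        exact h2
    rcases h [(g, 1), (g⁻¹, -1)] with h1 | h1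
    · left; rw [key] at h1; exact h1
    · right; rw [key] at h1
      intro x
      have : x ∈ {x : G | x * g = g * x} := by rw [h1]; trivial
      exact this
  · intro n g
    have key : {a : G | (([(1, (n : ℤ)), (g⁻¹, 0)] : List (G × ℤ)).map
        (fun p => p.1 * a ^ p.2)).prod = 1} = {x : G | x ^ n = g} := by
      ext x
      simp only [List.map_cons, List.map_nil, List.prod_cons, List.prod_nil, Set.mem_ofPred_eq,
        zpow_natCast, zpow_zero, mul_one, one_mul]
      exact mul_inv_eq_one
    rcases h [(1, (n : ℤ)), (g⁻¹, 0)] with h1 | h1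
    · left; rw [key] at h1; exact h1
    · right; rw [key] at h1
      intro x
      have : x ∈ {x : G | x ^ n = g} := by rw [h1]; trivial
      exact this

section basic

variable {G : Type u} [Group G]

/-- Noncentral. -/
def NC (g : G) : Prop := ¬ ∀ x, x * g = g * x

theorem cfin (h : HH G) {g : G} (hg : NC g) : {x : G | x * g = g * x}.Finite :=
  (h.comm g).resolve_right hg

theorem fibers (h : HH G) {g : G} (hg : NC g) (b : G) :
    ((fun x : G => x * g * x⁻¹ * g⁻¹) ⁻¹' {b}).Finite := by
  by_cases hne : ∃ x0 : G, x0 * g * x0⁻¹ * g⁻¹ = b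
  · obtain ⟨x0, h0⟩ := hne
    refine ((cfin h hg).image (fun y => x0 * y)).subset ?_
    intro x hx
    refine ⟨x0⁻¹ * x, ?_, by simp⟩
    have h1 : x * g * x⁻¹ * g⁻¹ = x0 * g * x0⁻¹ * g⁻¹ := by rw [h0]; exact hx
    have h2 : x * g * x⁻¹ = x0 * g * x0⁻¹ := mul_right_cancel h1
    change x0⁻¹ * x * g = g * (x0⁻¹ * x)
    calc x0⁻¹ * x * g = x0⁻¹ * (x * g * x⁻¹) * x := by group
      _ = x0⁻¹ * (x0 * g * x0⁻¹) * x := by rw [h2]
      _ = g * (x0⁻¹ * x) := by group
  · have : ((fun x : G => x * g * x⁻¹ * g⁻¹) ⁻¹' {b}) = ∅ := by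
      ext x; simp only [Set.mem_preimage, Set.mem_singleton_iff, Set.mem_empty_iff_false, iff_false]
      intro hx; exact hne ⟨x, hx⟩
    rw [this]; exact Set.finite_empty

theorem conj_infinite [Infinite G] (h : HH G) {g : G} (hg : NC g) :
    (Set.range (fun x : G => x * g * x⁻¹ * g⁻¹)).Infinite := by
  intro hf
  have h1 : ((fun x : G => x * g * x⁻¹ * g⁻¹) ⁻¹' (Set.range (fun x : G => x * g * x⁻¹ * g⁻¹))).Finite :=
    hf.preimage' (fun b _ => fibers h hg b)
  have h2 : ((fun x : G => x * g * x⁻¹ * g⁻¹) ⁻¹' (Set.range (fun x : G => x * g * x⁻¹ * g⁻¹))) = Set.univ := by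
    ext x; simp
  rw [h2] at h1
  exact Set.infinite_univ h1

theorem eng_fin (h : HH G) {a : G} (ha : NC a) (c : ℕ) (b : G) :
    ((eng a c) ⁻¹' {b}).Finite := by
  induction c generalizing b with
  | zero => 
    have : ((eng a 0) ⁻¹' {b}) = {b} := by ext x; simp [eng]
    rw [this]; exact Set.finite_singleton b
  | succ c ih =>
    have h1 : ((eng a (c + 1)) ⁻¹' {b}) = (eng a c) ⁻¹' ((fun y : G => y * a * y⁻¹ * a⁻¹) ⁻¹' {b}) := by
      ext x
      simp only [Set.mem_preimage, Set.mem_singleton_iff, eng]
      rw [Function.iterate_succ_apply']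
    rw [h1]
    exact (fibers h ha b).preimage' (fun d _ => ih d)

theorem center_finite (h : HH G) {g : G} (hg : NC g) : {z : G | ∀ x, x * z = z * x}.Finite :=
  (cfin h hg).subset (fun _ hz => (hz g).symm)

theorem fin_order (h : HH G) {g : G} (hg : NC g) : 0 < orderOf g := by
  rw [orderOf_pos_iff]
  by_contra hno
  have hinj : Function.Injective (fun n : ℕ => g ^ n) := injective_pow_iff_not_isOfFinOrder.mpr hno
  have h1 : (Set.range (fun n : ℕ => g ^ n)).Infinite := Set.infinite_range_of_injective hinj
  exact h1 ((cfin h hg).subset (by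
    rintro _ ⟨n, rfl⟩
    exact ((Commute.refl g).pow_left n).eq))

theorem all_pow [Infinite G] (h : HH G) {g : G} (hg : NC g) (x : G) : x ^ orderOf g = 1 := by
  rcases h.pow (orderOf g) 1 with h1 | h1
  · exfalso
    have h2 : (Set.range (fun x : G => x * g * x⁻¹)).Infinite := by
      intro hf
      apply conj_infinite h hg
      have h3 := hf.image (fun y => y * g⁻¹)
      refine h3.subset ?_
      rintro _ ⟨x, rfl⟩
      exact ⟨x * g * x⁻¹, ⟨x, rfl⟩, rfl⟩
    apply h2
    refine h1.subset ?_
    rintro _ ⟨x, rfl⟩
    change (x * g * x⁻¹) ^ orderOf g = 1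
    rw [conj_pow, pow_orderOf_eq_one]; simp
  · exact h1 x

theorem order_eq [Infinite G] (h : HH G) {g g' : G} (hg : NC g) (hg' : NC g') :
    orderOf g = orderOf g' :=
  Nat.dvd_antisymm (orderOf_dvd_of_pow_eq_one (all_pow h hg' g))
    (orderOf_dvd_of_pow_eq_one (all_pow h hg g'))

theorem prime_exp [Infinite G] (h : HH G) {g : G} (hg : NC g) :
    ∃ p : ℕ, p.Prime ∧ ∀ x : G, x ^ p = 1 := by
  have hpos := fin_order h hg
  have hm1 : orderOf g ≠ 1 := by
    intro h1
    rw [orderOf_eq_one_iff] at h1
    apply hg; intro x; rw [h1]; simp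
  refine ⟨(orderOf g).minFac, Nat.minFac_prime hm1, ?_⟩
  set p := (orderOf g).minFac with hp
  have hpp : p.Prime := Nat.minFac_prime hm1
  have hpd : p ∣ orderOf g := Nat.minFac_dvd _
  have hcen : ∀ x : G, ∀ y, y * x ^ p = x ^ p * y := by
    intro x
    by_cases hx : NC x
    · by_contra hn
      have h1 : orderOf (x ^ p) = orderOf g := order_eq h hn hg
      have h2 : orderOf x = orderOf g := order_eq h hx hg
      have h3 : orderOf (x ^ p) = orderOf x / p := by
        rw [orderOf_pow' x hpp.ne_zero, h2, Nat.gcd_eq_right hpd]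
      rw [h1, h2] at h3
      have h4 : orderOf g / p < orderOf g := Nat.div_lt_self hpos hpp.one_lt
      omega
    · rw [NC, not_not] at hx
      intro y
      exact ((show Commute y x from hx y).pow_right p).eq
  have hex : ∃ z : G, ∀ x : G, x ^ p = z := by
    by_contra hno
    push Not at hno
    have hfin : (⋃ z ∈ {z : G | ∀ x, x * z = z * x}, {x : G | x ^ p = z}).Finite := by
      apply Set.Finite.biUnion (center_finite h hg)
      intro z _
      rcases h.pow p z with h1 | h1
      · exact h1
      · obtain ⟨x, hx⟩ := hno z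
        exact absurd (h1 x) hx
    have huniv : (⋃ z ∈ {z : G | ∀ x, x * z = z * x}, {x : G | x ^ p = z}) = Set.univ := by
      ext x
      simp only [Set.mem_iUnion, Set.mem_univ, iff_true]
      exact ⟨x ^ p, hcen x, rfl⟩
    rw [huniv] at hfin
    exact Set.infinite_univ hfin
  obtain ⟨z, hz⟩ := hex
  have hz1 : z = 1 := by rw [← hz 1]; simp
  intro x; rw [hz x, hz1]

theorem ne_two [Infinite G] {g : G} (hg : NC g) (he : ∀ x : G, x ^ 2 = 1) : False := by
  apply hg
  intro x
  have h1 : ∀ y : G, y⁻¹ = y := by
    intro y
    have := he y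
    rw [pow_two] at this
    exact inv_eq_of_mul_eq_one_left this
  calc x * g = (x * g)⁻¹ := (h1 _).symm
    _ = g⁻¹ * x⁻¹ := mul_inv_rev _ _
    _ = g * x := by rw [h1, h1]

theorem ne_three [Infinite G] (h : HH G) {g : G} (hg : NC g) (he : ∀ x : G, x ^ 3 = 1) :
    False := by
  have key : ∀ y : G, (y * g * y⁻¹) * g = g * (y * g * y⁻¹) := by
    intro y
    have e1 : g * (y * g * y⁻¹) * (y * y * g * y⁻¹ * y⁻¹) = 1 := by
      have := he (g * y)
      have hy := he y
      have h3 : y * y * y = 1 := by rw [← hy, pow_succ, pow_two]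
      have h4 : y⁻¹ * y⁻¹ = y := by
        calc y⁻¹ * y⁻¹ = y⁻¹ * y⁻¹ * (y * y * y) := by rw [h3, mul_one]
          _ = y := by group
      calc g * (y * g * y⁻¹) * (y * y * g * y⁻¹ * y⁻¹)
          = g * y * g * y * g * (y⁻¹ * y⁻¹) := by group
        _ = g * y * g * y * g * y := by rw [h4]
        _ = (g * y) ^ 3 := by rw [pow_succ, pow_two]; simp only [mul_assoc]
        _ = 1 := this
    have e2 : g * (y * y * g * y⁻¹ * y⁻¹) * (y * g * y⁻¹) = 1 := by
      have := he (g * y⁻¹)
      have hy := he y
      have h3 : y * y * y = 1 := by rw [← hy, pow_succ, pow_two]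
      have h4 : y * y = y⁻¹ := by
        have : y * y * y * y⁻¹ = y⁻¹ := by rw [h3]; simp
        rw [← this]; group
      calc g * (y * y * g * y⁻¹ * y⁻¹) * (y * g * y⁻¹)
          = g * (y * y) * g * y⁻¹ * g * y⁻¹ := by group
        _ = g * y⁻¹ * g * y⁻¹ * g * y⁻¹ := by rw [h4]
        _ = (g * y⁻¹) ^ 3 := by rw [pow_succ, pow_two]; simp only [mul_assoc]
        _ = 1 := this
    have e3 : (y * g * y⁻¹) * (y * y * g * y⁻¹ * y⁻¹) = (y * y * g * y⁻¹ * y⁻¹) * (y * g * y⁻¹) := by
      have h6 := e1.trans e2.symm
      rw [mul_assoc g, mul_assoc g] at h6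
      exact mul_left_cancel h6
    have e4 : g * (y * g * y⁻¹) = (y * g * y⁻¹) * g := by
      have h5 : y⁻¹ * ((y * g * y⁻¹) * (y * y * g * y⁻¹ * y⁻¹)) * y
          = y⁻¹ * ((y * y * g * y⁻¹ * y⁻¹) * (y * g * y⁻¹)) * y := by rw [e3]
      calc g * (y * g * y⁻¹) = y⁻¹ * ((y * g * y⁻¹) * (y * y * g * y⁻¹ * y⁻¹)) * y := by group
        _ = y⁻¹ * ((y * y * g * y⁻¹ * y⁻¹) * (y * g * y⁻¹)) * y := h5
        _ = (y * g * y⁻¹) * g := by group
    exact e4.symm
  apply conj_infinite h hg
  refine ((cfin h hg).image (fun y => y * g⁻¹)).subset ?_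
  rintro _ ⟨y, rfl⟩
  exact ⟨y * g * y⁻¹, key y, rfl⟩

theorem prime_five [Infinite G] (h : HH G) {g : G} (hg : NC g) :
    ∃ p : ℕ, p.Prime ∧ 5 ≤ p ∧ ∀ x : G, x ^ p = 1 := by
  obtain ⟨p, hp, he⟩ := prime_exp h hg
  refine ⟨p, hp, ?_, he⟩
  by_contra hlt
  have h2 := hp.two_le
  have : p = 2 ∨ p = 3 ∨ p = 4 := by omega
  rcases this with h1 | h1 | h1
  · subst h1; exact ne_two hg he
  · subst h1; exact ne_three h hg he
  · subst h1; revert hp; decide

end basic

section quot

variable {G : Type u} [Group G]

theorem nc_iff (g : G) : NC g ↔ g ∉ Subgroup.center G := by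
  rw [NC, Subgroup.mem_center_iff]

theorem hh_subgroup (h : HH G) (H : Subgroup G) : HH H := by
  constructor
  · intro g
    rcases h.comm (g : G) with h1 | h1
    · left
      refine (h1.preimage (f := ((↑) : H → G)) Subtype.val_injective.injOn).subset ?_
      intro x hx
      exact congrArg Subtype.val hx
    · right; intro x; exact Subtype.ext (h1 x)
  · intro n g
    rcases h.pow n (g : G) with h1 | h1
    · left
      refine (h1.preimage (f := ((↑) : H → G)) Subtype.val_injective.injOn).subset ?_
      intro x hx
      exact congrArg Subtype.val hx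
    · right; intro x; exact Subtype.ext (h1 x)

theorem sub_nonab (h : HH G) {g : G} (hg : NC g) (H : Subgroup G) (hH : Infinite H) :
    ∃ a : H, NC a := by
  by_contra hno
  have hab : ∀ a : H, ∀ x : H, x * a = a * x := by
    intro a
    by_contra h1
    exact hno ⟨a, h1⟩
  have h1 : ∃ k : H, NC (k : G) := by
    by_contra h2
    have h3 : (H : Set G) ⊆ {z : G | ∀ x, x * z = z * x} := by
      intro k hk
      by_contra h4
      exact h2 ⟨⟨k, hk⟩, h4⟩
    have h4 : (H : Set G).Finite := (center_finite h hg).subset h3
    exact hH.not_finite h4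
  obtain ⟨k, hk⟩ := h1
  have h3 : (H : Set G) ⊆ {x : G | x * k = k * x} := by
    intro x hx
    exact congrArg Subtype.val (hab k ⟨x, hx⟩)
  have h4 : (H : Set G).Finite := (cfin h hk).subset h3
  exact hH.not_finite h4

theorem center_fin' (h : HH G) {g : G} (hg : NC g) : Finite (Subgroup.center G) := by
  have h1 : ((Subgroup.center G : Subgroup G) : Set G).Finite := by
    refine (center_finite h hg).subset ?_
    intro z hz
    exact Subgroup.mem_center_iff.mp hz
  exact h1

theorem quot_infinite [Infinite G] (hz : Finite (Subgroup.center G)) :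
    Infinite (G ⧸ Subgroup.center G) := by
  by_contra hno
  rw [not_infinite_iff_finite] at hno
  have h1 := Subgroup.card_eq_card_quotient_mul_card_subgroup (Subgroup.center G)
  have h2 : Nat.card G ≠ 0 := by
    rw [h1]
    exact Nat.mul_ne_zero Nat.card_pos.ne' Nat.card_pos.ne'
  exact (Infinite.not_finite : ¬ Finite G) (Nat.finite_of_card_ne_zero h2)

theorem mk_comm_iff (x b : G) :
    (QuotientGroup.mk x : G ⧸ Subgroup.center G) * QuotientGroup.mk b
      = QuotientGroup.mk b * QuotientGroup.mk x ↔ x * b * x⁻¹ * b⁻¹ ∈ Subgroup.center G := by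
  rw [← QuotientGroup.eq_one_iff]
  simp only [QuotientGroup.mk_mul, QuotientGroup.mk_inv]
  constructor
  · intro h
    rw [h]; group
  · intro h
    have h1 : (QuotientGroup.mk x : G ⧸ Subgroup.center G) * QuotientGroup.mk b
        * (QuotientGroup.mk x)⁻¹ = QuotientGroup.mk b := mul_inv_eq_one.mp h
    exact mul_inv_eq_iff_eq_mul.mp h1

theorem quot_center [Infinite G] (h : HH G) {g : G} (hg : NC g) :
    Subgroup.center (G ⧸ Subgroup.center G) = ⊥ := by
  rw [eq_bot_iff]
  intro q hq
  rw [Subgroup.mem_center_iff] at hq
  induction q using QuotientGroup.induction_on with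
  | H b =>
    rw [Subgroup.mem_bot, QuotientGroup.eq_one_iff]
    by_contra hb
    have hb' : NC b := (nc_iff b).mpr hb
    apply conj_infinite h hb'
    refine (center_finite h hg).subset ?_
    rintro _ ⟨x, rfl⟩
    exact Subgroup.mem_center_iff.mp ((mk_comm_iff x b).mp (hq (QuotientGroup.mk x)))

theorem hh_quot [Infinite G] (h : HH G) {g : G} (hg : NC g) : HH (G ⧸ Subgroup.center G) := by
  obtain ⟨p, hp, -, he⟩ := prime_five h hg
  have heq : ∀ q : G ⧸ Subgroup.center G, q ^ p = 1 := by
    intro q
    induction q using QuotientGroup.induction_on with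
    | H x => rw [← QuotientGroup.mk_pow, he x]; rfl
  constructor
  · intro q
    induction q using QuotientGroup.induction_on with
    | H b =>
      by_cases hb : NC b
      · left
        have h1 : ((fun x : G => x * b * x⁻¹ * b⁻¹) ⁻¹' {z : G | ∀ x, x * z = z * x}).Finite :=
          (center_finite h hg).preimage' (fun d _ => fibers h hb d)
        refine (h1.image (QuotientGroup.mk : G → G ⧸ Subgroup.center G)).subset ?_
        intro y hy
        induction y using QuotientGroup.induction_on with
        | H x => exact ⟨x, Subgroup.mem_center_iff.mp ((mk_comm_iff x b).mp hy), rfl⟩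
      · right
        rw [nc_iff, not_not] at hb
        have : (QuotientGroup.mk b : G ⧸ Subgroup.center G) = 1 := (QuotientGroup.eq_one_iff b).mpr hb
        intro x; rw [this]; simp
  · intro n r
    by_cases hn : p ∣ n
    · obtain ⟨m, rfl⟩ := hn
      by_cases hr : r = 1
      · right; intro x; rw [pow_mul, heq, one_pow, hr]
      · left
        have : {x : G ⧸ Subgroup.center G | x ^ (p * m) = r} = ∅ := by
          ext x
          simp only [Set.mem_ofPred_eq, Set.mem_empty_iff_false, iff_false]
          rw [pow_mul, heq, one_pow]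
          exact fun h => hr h.symm
        rw [this]; exact Set.finite_empty
    · left
      have hco : Nat.Coprime n p := ((Nat.Prime.coprime_iff_not_dvd hp).mpr hn).symm
      refine Set.Subsingleton.finite ?_
      intro x hx y hy
      have hx' : x ^ n = r := hx
      have hy' : y ^ n = r := hy
      have hb := Nat.gcd_eq_gcd_ab n p
      rw [hco.gcd_eq_one] at hb
      have key : ∀ w : G ⧸ Subgroup.center G, w = (w ^ n) ^ (Nat.gcdA n p) := by
        intro w
        calc w = w ^ ((1 : ℕ) : ℤ) := by simp
          _ = w ^ ((n : ℤ) * Nat.gcdA n p + (p : ℤ) * Nat.gcdB n p) := by rw [hb]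
          _ = (w ^ n) ^ (Nat.gcdA n p) := by
            rw [zpow_add, zpow_mul, zpow_mul, zpow_natCast, zpow_natCast, heq w, one_zpow, mul_one]
      rw [key x, key y, hx', hy']

theorem exists_fg [Infinite G] (h : HH G) (hc : ∀ q : G, q ≠ 1 → NC q) :
    ∃ S : Finset G, Infinite (Subgroup.closure (S : Set G)) := by
  classical
  obtain ⟨g, hg1⟩ := exists_ne (1 : G)
  have hg := hc g hg1
  obtain ⟨p, hp, -, he⟩ := prime_five h hg
  have : Fact p.Prime := ⟨hp⟩
  have hy : ∀ c : G, ∃ y : G, c ≠ 1 → y * c ≠ c * y := by
    intro c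
    by_cases h1 : c = 1
    · exact ⟨1, fun h2 => absurd h1 h2⟩
    · have h2 := hc c h1
      rw [NC] at h2
      push Not at h2
      obtain ⟨y, hy⟩ := h2
      exact ⟨y, fun _ => hy⟩
  choose y hy using hy
  refine ⟨insert g ((cfin h hg).toFinset.image y), ?_⟩
  set K := Subgroup.closure ((insert g ((cfin h hg).toFinset.image y) : Finset G) : Set G) with hK
  by_contra hno
  rw [not_infinite_iff_finite] at hno
  have hgK : g ∈ K := Subgroup.subset_closure (by simp)
  have : Nontrivial K := ⟨⟨⟨g, hgK⟩, 1, fun h1 => hg1 (congrArg Subtype.val h1)⟩⟩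
  have hpg : IsPGroup p K := by
    intro k
    refine ⟨1, ?_⟩
    rw [pow_one]
    exact Subtype.ext (he k)
  have := hpg.center_nontrivial
  obtain ⟨z, hz1⟩ := exists_ne (1 : Subgroup.center K)
  have hzne : ((z : K) : G) ≠ 1 := by
    intro h1
    apply hz1
    exact Subtype.ext (Subtype.ext h1)
  have hzc : ∀ k : K, (k : G) * ((z : K) : G) = ((z : K) : G) * k := by
    intro k
    exact congrArg Subtype.val (Subgroup.mem_center_iff.mp z.2 k)
  have hzg : ((z : K) : G) ∈ {x : G | x * g = g * x} := (hzc ⟨g, hgK⟩).symm
  have hyK : y ((z : K) : G) ∈ K := by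
    apply Subgroup.subset_closure
    rw [Finset.coe_insert]
    right
    rw [Finset.coe_image]
    refine ⟨((z : K) : G), ?_, rfl⟩
    simpa using hzg
  exact hy _ hzne (hzc ⟨_, hyK⟩)

theorem infinite_of_map {G' : Type u} [Group G'] (f : G →* G') (K : Subgroup G)
    (h : Infinite (K.map f)) : Infinite K := by
  by_contra hno
  rw [not_infinite_iff_finite] at hno
  have h1 : (K : Set G).Finite := hno
  have h2 : ((K.map f : Subgroup G') : Set G').Finite := by
    rw [Subgroup.coe_map]; exact h1.image f
  exact h.not_finite h2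

theorem exists_fg' [Infinite G] (h : HH G) {g : G} (hg : NC g) :
    ∃ S : Finset G, Infinite (Subgroup.closure (S : Set G)) := by
  classical
  have := quot_infinite (center_fin' h hg)
  have hq := hh_quot h hg
  have hb := quot_center h hg
  obtain ⟨S, hS⟩ := exists_fg hq (by
    intro q hq1
    rw [nc_iff, hb, Subgroup.mem_bot]
    exact hq1)
  refine ⟨S.image Quotient.out, ?_⟩
  apply infinite_of_map (QuotientGroup.mk' (Subgroup.center G))
  rw [MonoidHom.map_closure]
  have : (QuotientGroup.mk' (Subgroup.center G)) '' ((S.image Quotient.out : Finset G) : Set G)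
      = (S : Set (G ⧸ Subgroup.center G)) := by
    rw [Finset.coe_image, Set.image_image]
    have : ∀ q : G ⧸ Subgroup.center G, (QuotientGroup.mk' (Subgroup.center G)) (Quotient.out q) = q := by
      intro q; exact QuotientGroup.out_eq' q
    simp only [this, Set.image_id']
  rw [this]
  exact hS

theorem fg_sub [Infinite G] (h : HH G) {g : G} (hg : NC g) (H : Subgroup G) (hH : Infinite H) :
    ∃ S : Finset G, (S : Set G) ⊆ H ∧ Infinite (Subgroup.closure (S : Set G)) := by
  classical
  obtain ⟨a, ha⟩ := sub_nonab h hg H hH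
  obtain ⟨S, hS⟩ := exists_fg' (hh_subgroup h H) ha
  refine ⟨S.image Subtype.val, ?_, ?_⟩
  · rw [Finset.coe_image]
    rintro _ ⟨x, _, rfl⟩
    exact x.2
  · have h1 : Subgroup.closure ((S.image Subtype.val : Finset G) : Set G)
        = (Subgroup.closure (S : Set H)).map H.subtype := by
      rw [MonoidHom.map_closure, Finset.coe_image]; rfl
    rw [h1]
    by_contra hno
    rw [not_infinite_iff_finite] at hno
    have h2 : (((Subgroup.closure (S : Set H)).map H.subtype : Subgroup G) : Set G).Finite := hno
    rw [Subgroup.coe_map] at h2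
    have h3 : ((Subgroup.closure (S : Set H) : Subgroup H) : Set H).Finite :=
      Set.Finite.of_finite_image h2 (H.subtype_injective.injOn)
    exact hS.not_finite h3

end quot

section twogen

theorem eng_map {G G' : Type u} [Group G] [Group G'] (f : G →* G') (a : G) (c : ℕ) (x : G) :
    f (eng a c x) = eng (f a) c (f x) := by
  induction c with
  | zero => rfl
  | succ c ih =>
    have h1 : eng a (c + 1) x = eng a c x * a * (eng a c x)⁻¹ * a⁻¹ := by
      simp only [eng]; rw [Function.iterate_succ_apply']
    have h2 : eng (f a) (c + 1) (f x) = eng (f a) c (f x) * f a * (eng (f a) c (f x))⁻¹ * (f a)⁻¹ := by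
      simp only [eng]; rw [Function.iterate_succ_apply']
    rw [h1, h2, ← ih]
    simp only [map_mul, map_inv]

theorem eng_pgroup (p : ℕ) [Fact p.Prime] (n : ℕ) : ∀ (K : Type u) [Group K] [Finite K],
    IsPGroup p K → Nat.card K ≤ n + 1 → ∀ a x : K, eng a n x = 1 := by
  induction n with
  | zero =>
    intro K _ _ _ hc a x
    have h1 : Nat.card K = 1 := le_antisymm (by omega) Nat.card_pos
    have : Subsingleton K := (Nat.card_eq_one_iff_unique.mp h1).1
    exact Subsingleton.elim _ _
  | succ n ih =>
    intro K _ _ hp hc a x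
    rcases subsingleton_or_nontrivial K with h1 | h1
    · exact Subsingleton.elim _ _
    · have hcn : Nontrivial (Subgroup.center K) := hp.center_nontrivial
      have h2 := Subgroup.card_eq_card_quotient_mul_card_subgroup (Subgroup.center K)
      have h3 : 1 < Nat.card (Subgroup.center K) := Finite.one_lt_card
      have h4 : 0 < Nat.card (K ⧸ Subgroup.center K) := Nat.card_pos
      have h5 : Nat.card (K ⧸ Subgroup.center K) ≤ n + 1 := by
        have : Nat.card (K ⧸ Subgroup.center K) * 2 ≤ Nat.card K := by
          rw [h2]; exact Nat.mul_le_mul_left _ h3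
        omega
      have h6 := ih (K ⧸ Subgroup.center K) (hp.to_quotient _) h5
        (QuotientGroup.mk' _ a) (QuotientGroup.mk' _ x)
      rw [← eng_map] at h6
      have h7 : eng a n x ∈ Subgroup.center K := (QuotientGroup.eq_one_iff _).mp h6
      have h8 : eng a (n + 1) x = eng a n x * a * (eng a n x)⁻¹ * a⁻¹ := by
        simp only [eng]; rw [Function.iterate_succ_apply']
      rw [h8, ← Subgroup.mem_center_iff.mp h7 a]
      group

theorem order_fin {G : Type u} [Group G] [Infinite G] (h : HH G) {a : G} (ha : NC a) (N : ℕ) :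
    {x : G | Finite (Subgroup.closure {a, x}) ∧ Nat.card (Subgroup.closure {a, x}) ≤ N}.Finite := by
  obtain ⟨p, hp, -, he⟩ := prime_five h ha
  have : Fact p.Prime := ⟨hp⟩
  refine (eng_fin h ha N 1).subset ?_
  rintro x ⟨hfin, hcard⟩
  have hpg : IsPGroup p (Subgroup.closure {a, x}) := by
    intro k
    refine ⟨1, ?_⟩
    rw [pow_one]
    exact Subtype.ext (he k)
  have haK : a ∈ Subgroup.closure {a, x} := Subgroup.subset_closure (by simp)
  have hxK : x ∈ Subgroup.closure {a, x} := Subgroup.subset_closure (by simp)
  have h1 := eng_pgroup p N (Subgroup.closure {a, x}) hpg (by omega) ⟨a, haK⟩ ⟨x, hxK⟩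
  have h2 := congrArg (Subgroup.closure {a, x}).subtype h1
  rw [eng_map] at h2
  exact h2

end twogen

section cz

variable {G : Type u} [Group G]

theorem cz_subgroup (h : CofiniteZariski G) (H : Subgroup G) : CofiniteZariski H := by
  intro l
  have key : ∀ a : H, (((l.map (fun p => p.1 * a ^ p.2)).prod : H) : G)
      = (((l.map (fun p => ((p.1 : G), p.2))).map (fun p : G × ℤ => p.1 * (a : G) ^ p.2)).prod : G) := by
    intro a
    rw [Subgroup.val_list_prod, List.map_map, List.map_map]
    congr 1
  have hset : {a : H | (l.map (fun p => p.1 * a ^ p.2)).prod = 1}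
      = ((↑) : H → G) ⁻¹' {a : G | ((l.map (fun p => ((p.1 : G), p.2))).map
          (fun p : G × ℤ => p.1 * a ^ p.2)).prod = 1} := by
    ext a
    simp only [Set.mem_ofPred_eq, Set.mem_preimage]
    rw [← key a]
    constructor
    · intro h1; rw [h1]; rfl
    · intro h1; exact Subtype.ext h1
  rcases h (l.map (fun p => ((p.1 : G), p.2))) with h1 | h1
  · left
    rw [hset]
    exact h1.preimage Subtype.val_injective.injOn
  · right
    rw [hset, h1]; rfl

theorem cz_quot (h : CofiniteZariski G) (hz : Finite (Subgroup.center G)) :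
    CofiniteZariski (G ⧸ Subgroup.center G) := by
  intro l
  set l' : List (G × ℤ) := l.map (fun p => (Quotient.out p.1, p.2)) with hl'
  have key : ∀ a : G, (((l'.map (fun p : G × ℤ => p.1 * a ^ p.2)).prod : G) : G ⧸ Subgroup.center G)
      = (l.map (fun p => p.1 * (a : G ⧸ Subgroup.center G) ^ p.2)).prod := by
    intro a
    change (QuotientGroup.mk' (Subgroup.center G)) _ = _
    rw [map_list_prod, hl', List.map_map, List.map_map]
    congr 1
    apply List.map_congr_left
    intro p _
    simp only [Function.comp, map_mul, map_zpow]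
    congr 1
    exact QuotientGroup.out_eq' p.1
  have hz' : ∀ z : G, {a : G | (l'.map (fun p : G × ℤ => p.1 * a ^ p.2)).prod = z}.Finite ∨
      {a : G | (l'.map (fun p : G × ℤ => p.1 * a ^ p.2)).prod = z} = Set.univ := by
    intro z
    have h1 : {a : G | (l'.map (fun p : G × ℤ => p.1 * a ^ p.2)).prod = z}
        = {a : G | ((l' ++ [(z⁻¹, 0)]).map (fun p : G × ℤ => p.1 * a ^ p.2)).prod = 1} := by
      ext a
      simp only [Set.mem_ofPred_eq, List.map_append, List.prod_append, List.map_cons, List.map_nil,
        List.prod_cons, List.prod_nil, zpow_zero, mul_one]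
      exact mul_inv_eq_one.symm
    rw [h1]
    exact h _
  by_cases hall : ∀ z ∈ ((Subgroup.center G : Subgroup G) : Set G),
      {a : G | (l'.map (fun p : G × ℤ => p.1 * a ^ p.2)).prod = z}.Finite
  · left
    have hfin : (⋃ z ∈ ((Subgroup.center G : Subgroup G) : Set G),
        {a : G | (l'.map (fun p : G × ℤ => p.1 * a ^ p.2)).prod = z}).Finite :=
      Set.Finite.biUnion (show ((Subgroup.center G : Subgroup G) : Set G).Finite from hz) hall
    refine (hfin.image (QuotientGroup.mk : G → G ⧸ Subgroup.center G)).subset ?_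
    intro q hq
    induction q using QuotientGroup.induction_on with
    | H a =>
      refine ⟨a, ?_, rfl⟩
      simp only [Set.mem_iUnion]
      refine ⟨(l'.map (fun p : G × ℤ => p.1 * a ^ p.2)).prod, ?_, rfl⟩
      have h1 : (((l'.map (fun p : G × ℤ => p.1 * a ^ p.2)).prod : G) : G ⧸ Subgroup.center G) = 1 := by
        rw [key a]; exact hq
      exact (QuotientGroup.eq_one_iff _).mp h1
  · right
    push Not at hall
    obtain ⟨z, hzc, hzf⟩ := hall
    have h1 := (hz' z).resolve_left hzf
    ext q
    simp only [Set.mem_univ, iff_true]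
    induction q using QuotientGroup.induction_on with
    | H a =>
      have h2 : a ∈ {a : G | (l'.map (fun p : G × ℤ => p.1 * a ^ p.2)).prod = z} := by rw [h1]; trivial
      have h3 : (l'.map (fun p : G × ℤ => p.1 * a ^ p.2)).prod = z := h2
      change (l.map (fun p => p.1 * (a : G ⧸ Subgroup.center G) ^ p.2)).prod = 1
      rw [← key a, h3]
      exact (QuotientGroup.eq_one_iff _).mpr hzc

end cz

section words

variable {G : Type u} [Group G]

/-- The value `w(y, x)` of a word `w` in two letters (`false` stands for `y`, `true` for `x`). -/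
def ev (y x : G) (w : FreeGroup Bool) : G := FreeGroup.lift (fun b => if b then x else y) w

/-- The functions `x ↦ g_1 x^(k_1) ... g_n x^(k_n)`. -/
def Eqn (φ : G → G) : Prop := ∃ l : List (G × ℤ), ∀ x, (l.map (fun p => p.1 * x ^ p.2)).prod = φ x

theorem eqn_const (c : G) : Eqn (fun _ => c) := ⟨[(c, 0)], fun x => by simp⟩

theorem eqn_id : Eqn (fun x : G => x) := ⟨[(1, 1)], fun x => by simp⟩

theorem eqn_mul {φ ψ : G → G} (h1 : Eqn φ) (h2 : Eqn ψ) : Eqn (fun x => φ x * ψ x) := by
  obtain ⟨l1, h1⟩ := h1
  obtain ⟨l2, h2⟩ := h2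
  refine ⟨l1 ++ l2, fun x => ?_⟩
  rw [List.map_append, List.prod_append, h1, h2]

theorem eqn_inv_aux (l : List (G × ℤ)) : ∃ l' : List (G × ℤ), ∀ x : G,
    (l'.map (fun p => p.1 * x ^ p.2)).prod = ((l.map (fun p => p.1 * x ^ p.2)).prod)⁻¹ := by
  induction l with
  | nil => exact ⟨[], fun x => by simp⟩
  | cons p l ih =>
    obtain ⟨l', h⟩ := ih
    refine ⟨l' ++ [(1, -p.2), (p.1⁻¹, 0)], fun x => ?_⟩
    rw [List.map_append, List.prod_append, h]
    simp [mul_assoc]

theorem eqn_inv {φ : G → G} (h1 : Eqn φ) : Eqn (fun x => (φ x)⁻¹) := by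
  obtain ⟨l, h⟩ := h1
  obtain ⟨l', h'⟩ := eqn_inv_aux l
  exact ⟨l', fun x => by rw [h', h]⟩

theorem eqn_lift (f : G → Bool → G) (hf : ∀ b, Eqn (fun x => f x b)) (w : FreeGroup Bool) :
    Eqn (fun x => FreeGroup.lift (f x) w) := by
  induction w using FreeGroup.induction_on with
  | C1 => simpa using eqn_const (1 : G)
  | of b => simpa using hf b
  | inv_of b ih => simpa using eqn_inv (hf b)
  | mul u v hu hv => simpa using eqn_mul hu hv

theorem fin_or_all (h : CofiniteZariski G) {φ : G → G} (hφ : Eqn φ) (c : G) :
    {x | φ x = c}.Finite ∨ ∀ x, φ x = c := by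
  obtain ⟨l, hl⟩ := eqn_mul hφ (eqn_const c⁻¹)
  have hset : {x | φ x = c} = {x : G | (l.map (fun p => p.1 * x ^ p.2)).prod = 1} := by
    ext x
    simp only [Set.mem_ofPred_eq]
    rw [hl x]
    exact mul_inv_eq_one.symm
  rcases h l with h1 | h1
  · left; rw [hset]; exact h1
  · right
    intro x
    have : x ∈ {x | φ x = c} := by rw [hset, h1]; trivial
    exact this

theorem eqn_ev_right (a : G) (w : FreeGroup Bool) : Eqn (fun x => ev a x w) := by
  apply eqn_lift (fun x b => if b then x else a)
  intro b
  cases b
  · simpa using eqn_const a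
  · simpa using eqn_id (G := G)

theorem eqn_ev_left (b : G) (w : FreeGroup Bool) : Eqn (fun y => ev y b w) := by
  apply eqn_lift (fun y c => if c then b else y)
  intro c
  cases c
  · simpa using eqn_id (G := G)
  · simpa using eqn_const b

theorem map_ev {G' : Type u} [Group G'] (f : G →* G') (y x : G) (w : FreeGroup Bool) :
    f (ev y x w) = ev (f y) (f x) w := by
  have h1 : f.comp (FreeGroup.lift (fun b : Bool => if b then x else y))
      = FreeGroup.lift (fun b : Bool => if b then f x else f y) := by
    ext b
    cases b <;> simp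
  exact DFunLike.congr_fun h1 w

theorem eng_map' {G' : Type u} {K : Type} [Group K] [Group G'] (f : K →* G') (a : K) (c : ℕ) (x : K) :
    f (eng a c x) = eng (f a) c (f x) := by
  induction c with
  | zero => rfl
  | succ c ih =>
    have h1 : eng a (c + 1) x = eng a c x * a * (eng a c x)⁻¹ * a⁻¹ := by
      simp only [eng]; rw [Function.iterate_succ_apply']
    have h2 : eng (f a) (c + 1) (f x) = eng (f a) c (f x) * f a * (eng (f a) c (f x))⁻¹ * (f a)⁻¹ := by
      simp only [eng]; rw [Function.iterate_succ_apply']
    rw [h1, h2, ← ih]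
    simp only [map_mul, map_inv]

theorem ev_one (w : FreeGroup Bool) : ∃ k : ℤ, ∀ y : G, ev y 1 w = y ^ k := by
  induction w using FreeGroup.induction_on with
  | C1 => exact ⟨0, fun y => by simp [ev]⟩
  | of b =>
    cases b
    · exact ⟨1, fun y => by simp [ev]⟩
    · exact ⟨0, fun y => by simp [ev]⟩
  | inv_of b ih =>
    obtain ⟨k, hk⟩ := ih
    refine ⟨-k, fun y => ?_⟩
    rw [zpow_neg, ← hk y, ev, map_inv]; rfl
  | mul u v hu hv =>
    obtain ⟨k, hk⟩ := hu
    obtain ⟨m, hm⟩ := hv
    refine ⟨k + m, fun y => ?_⟩
    rw [zpow_add, ← hk y, ← hm y, ev, map_mul]; rfl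

/-- The main trick: an equation with one noncentral constant and infinitely many solutions is a law. -/
theorem law_of_infinite [Infinite G] (h : CofiniteZariski G) {a : G} (ha : NC a)
    (w : FreeGroup Bool) (c : G) (hinf : {x | ev a x w = c}.Infinite) :
    ∀ y x : G, ev y x w = ev y 1 w := by
  have hall : ∀ x, ev a x w = c := (fin_or_all h (eqn_ev_right a w) c).resolve_left hinf
  intro y b
  have h2 : Eqn (fun y : G => ev y b w * (ev y 1 w)⁻¹) :=
    eqn_mul (eqn_ev_left b w) (eqn_inv (eqn_ev_left 1 w))
  rcases fin_or_all h h2 1 with h3 | h3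
  · exfalso
    have h4 : (Set.range (fun z : G => z * a * z⁻¹)).Infinite := by
      intro hf
      apply conj_infinite (hh_of h) ha
      refine (hf.image (fun y => y * a⁻¹)).subset ?_
      rintro _ ⟨x, rfl⟩
      exact ⟨x * a * x⁻¹, ⟨x, rfl⟩, rfl⟩
    apply h4
    refine h3.subset ?_
    rintro _ ⟨z, rfl⟩
    change ev (z * a * z⁻¹) b w * (ev (z * a * z⁻¹) 1 w)⁻¹ = 1
    have h5 := map_ev (MulAut.conj z).toMonoidHom a (z⁻¹ * b * z) w
    have h6 := map_ev (MulAut.conj z).toMonoidHom a 1 w
    simp only [MulEquiv.coe_toMonoidHom, MulAut.conj_apply, map_one] at h5 h6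
    have h7 : z * (z⁻¹ * b * z) * z⁻¹ = b := by group
    rw [h7, hall] at h5
    rw [hall] at h6
    rw [← h5, ← h6]
    group
  · exact mul_inv_eq_one.mp (h3 y)

/-- The laws in two variables of `G`. -/
def Laws (G : Type u) [Group G] : Subgroup (FreeGroup Bool) := ⨅ f : FreeGroup Bool →* G, f.ker

instance laws_normal : (Laws G).Normal := by
  constructor
  intro n hn g
  rw [Laws, Subgroup.mem_iInf] at hn ⊢
  intro f
  exact (inferInstance : f.ker.Normal).conj_mem n (hn f) g

theorem mem_laws (w : FreeGroup Bool) : w ∈ Laws G ↔ ∀ y x : G, ev y x w = 1 := by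
  rw [Laws, Subgroup.mem_iInf]
  constructor
  · intro h y x
    exact h _
  · intro h f
    have h1 : f = FreeGroup.lift
        (fun b : Bool => if b then f (FreeGroup.of true) else f (FreeGroup.of false)) := by
      ext b
      cases b <;> simp
    rw [MonoidHom.mem_ker, h1]
    exact h _ _

theorem free_infinite [Infinite G] (h : CofiniteZariski G) {a : G} (ha : NC a) :
    Infinite (FreeGroup Bool ⧸ Laws G) := by
  by_contra hno
  rw [not_infinite_iff_finite] at hno
  obtain ⟨p, hp, -, he⟩ := prime_five (hh_of h) ha
  have : Fact p.Prime := ⟨hp⟩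
  have hpg : IsPGroup p (FreeGroup Bool ⧸ Laws G) := by
    intro q
    refine ⟨1, ?_⟩
    rw [pow_one]
    induction q using QuotientGroup.induction_on with
    | H w =>
      rw [← QuotientGroup.mk_pow, QuotientGroup.eq_one_iff, mem_laws]
      intro y x
      rw [ev, map_pow]
      exact he _
  have h1 := eng_pgroup p (Nat.card (FreeGroup Bool ⧸ Laws G)) (FreeGroup Bool ⧸ Laws G) hpg
    (by omega) (QuotientGroup.mk' _ (FreeGroup.of false)) (QuotientGroup.mk' _ (FreeGroup.of true))
  rw [← eng_map] at h1
  have h2 := (mem_laws _).mp ((QuotientGroup.eq_one_iff _).mp h1)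
  have h3 := eng_fin (hh_of h) ha (Nat.card (FreeGroup Bool ⧸ Laws G)) 1
  have h4 : (eng a (Nat.card (FreeGroup Bool ⧸ Laws G)) ⁻¹' {(1 : G)}) = Set.univ := by
    ext x
    simp only [Set.mem_preimage, Set.mem_singleton_iff, Set.mem_univ, iff_true]
    have h5 := h2 a x
    rw [ev, eng_map'] at h5
    simpa using h5
  rw [h4] at h3
  exact Set.infinite_univ h3

end words

section many

variable {G : Type u} [Group G]

/-- The value `w(a_1, ..., a_n, x)` of a word `w` in the letters `some i` (for `a i`) and `none` (for `x`). -/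
def evn {n : ℕ} (a : Fin n → G) (x : G) (w : FreeGroup (Option (Fin n))) : G :=
  FreeGroup.lift (fun o => o.elim x a) w

theorem eqn_lift' {κ : Type} (f : G → κ → G) (hf : ∀ b, Eqn (fun x => f x b)) (w : FreeGroup κ) :
    Eqn (fun x => FreeGroup.lift (f x) w) := by
  induction w using FreeGroup.induction_on with
  | C1 => simpa using eqn_const (1 : G)
  | of b => simpa using hf b
  | inv_of b ih => simpa using eqn_inv (hf b)
  | mul u v hu hv => simpa using eqn_mul hu hv

theorem irr [Infinite G] (h : CofiniteZariski G) {κ : Type} [Fintype κ] [DecidableEq κ]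
    (f f' : (κ → G) → G) (hf : ∀ b i, Eqn (fun x => f (Function.update b i x)))
    (hf' : ∀ b i, Eqn (fun x => f' (Function.update b i x))) (p p' : κ → G)
    (hp : f p ≠ 1) (hp' : f' p' ≠ 1) : ∃ a, f a ≠ 1 ∧ f' a ≠ 1 := by
  classical
  have key : ∀ J : Finset κ, ∃ a : κ → G, f (fun i => if i ∈ J then a i else p i) ≠ 1 ∧
      f' (fun i => if i ∈ J then a i else p' i) ≠ 1 := by
    intro J
    induction J using Finset.induction_on with
    | empty => exact ⟨p, by simpa using hp, by simpa using hp'⟩
    | insert j J hj ih =>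
      obtain ⟨a, h1, h2⟩ := ih
      have e1 := (fin_or_all h (hf (fun i => if i ∈ J then a i else p i) j) 1).resolve_right (by
        intro hall
        apply h1
        have h3 := hall (p j)
        have h4 : Function.update (fun i => if i ∈ J then a i else p i) j (p j)
            = (fun i => if i ∈ J then a i else p i) := by
          ext i
          by_cases hij : i = j
          · subst hij; simp [hj]
          · simp [Function.update_of_ne hij]
        rw [h4] at h3
        exact h3)
      have e2 := (fin_or_all h (hf' (fun i => if i ∈ J then a i else p' i) j) 1).resolve_right (by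
        intro hall
        apply h2
        have h3 := hall (p' j)
        have h4 : Function.update (fun i => if i ∈ J then a i else p' i) j (p' j)
            = (fun i => if i ∈ J then a i else p' i) := by
          ext i
          by_cases hij : i = j
          · subst hij; simp [hj]
          · simp [Function.update_of_ne hij]
        rw [h4] at h3
        exact h3)
      obtain ⟨x, hx⟩ := (e1.union e2).exists_notMem
      have hx1 : f (Function.update (fun i => if i ∈ J then a i else p i) j x) ≠ 1 :=
        fun h3 => hx (Or.inl h3)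
      have hx2 : f' (Function.update (fun i => if i ∈ J then a i else p' i) j x) ≠ 1 :=
        fun h3 => hx (Or.inr h3)
      have key2 : ∀ q : κ → G, (fun i => if i ∈ insert j J then Function.update a j x i else q i)
          = Function.update (fun i => if i ∈ J then a i else q i) j x := by
        intro q
        ext i
        by_cases hij : i = j
        · subst hij; simp
        · simp [Function.update_of_ne hij, hij]
      refine ⟨Function.update a j x, ?_, ?_⟩
      · rw [key2]; exact hx1
      · rw [key2]; exact hx2
  obtain ⟨a, h1, h2⟩ := key Finset.univ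
  exact ⟨a, by simpa using h1, by simpa using h2⟩

theorem eqn_update {κ : Type} [DecidableEq κ] (b : κ → G) (i j : κ) :
    Eqn (fun x => Function.update b i x j) := by
  by_cases hij : j = i
  · subst hij; simpa using eqn_id (G := G)
  · simpa [Function.update_of_ne hij] using eqn_const (b j)

theorem free_ext [Infinite G] (h : CofiniteZariski G) {n : ℕ} (s w : FreeGroup (Option (Fin n)))
    (hsw : ∀ (a : Fin n → G) (z : G), evn a (evn a z s) w = 1) :
    (∀ (a : Fin n → G) (x : G), evn a x w = 1) ∨
      ∀ (a : Fin n → G) (z : G), evn a z s = evn a 1 s := by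
  classical
  by_contra hno
  push Not at hno
  obtain ⟨⟨a1, x1, h1⟩, a2, z2, h2⟩ := hno
  let f : (Fin n ⊕ Bool → G) → G := fun b =>
    evn (fun i => b (Sum.inl i)) (b (Sum.inr false)) s * (evn (fun i => b (Sum.inl i)) 1 s)⁻¹
  let f' : (Fin n ⊕ Bool → G) → G := fun b => evn (fun i => b (Sum.inl i)) (b (Sum.inr true)) w
  have hf : ∀ b i, Eqn (fun x => f (Function.update b i x)) := by
    intro b i
    refine eqn_mul ?_ (eqn_inv ?_)
    · apply eqn_lift' (fun x o => Option.elim o (Function.update b i x (Sum.inr false))
        (fun k => Function.update b i x (Sum.inl k)))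
      intro o
      cases o
      · exact eqn_update b i _
      · exact eqn_update b i _
    · apply eqn_lift' (fun x o => Option.elim o 1
        (fun k => Function.update b i x (Sum.inl k)))
      intro o
      cases o
      · exact eqn_const 1
      · exact eqn_update b i _
  have hf' : ∀ b i, Eqn (fun x => f' (Function.update b i x)) := by
    intro b i
    apply eqn_lift' (fun x o => Option.elim o (Function.update b i x (Sum.inr true))
      (fun k => Function.update b i x (Sum.inl k)))
    intro o
    cases o
    · exact eqn_update b i _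
    · exact eqn_update b i _
  obtain ⟨b, hb1, hb2⟩ := irr h f f' hf hf' (Sum.elim a2 (fun _ => z2)) (Sum.elim a1 (fun _ => x1))
    (fun h3 => h2 (mul_inv_eq_one.mp h3)) h1
  let a : Fin n → G := fun i => b (Sum.inl i)
  have hE1 : Eqn (fun z => evn a z s) := by
    apply eqn_lift' (fun z o => Option.elim o z a)
    intro o
    cases o
    · exact eqn_id
    · exact eqn_const _
  have hE2 : Eqn (fun z => evn a z w) := by
    apply eqn_lift' (fun z o => Option.elim o z a)
    intro o
    cases o
    · exact eqn_id
    · exact eqn_const _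
  have hfib : ∀ c : G, {z | evn a z s = c}.Finite := by
    intro c
    refine (fin_or_all h hE1 c).resolve_right ?_
    intro hall
    apply hb1
    change evn a (b (Sum.inr false)) s * (evn a 1 s)⁻¹ = 1
    rw [hall, hall, mul_inv_cancel]
  have hw : {x | evn a x w = 1}.Finite := by
    refine (fin_or_all h hE2 1).resolve_right ?_
    intro hall
    exact hb2 (hall _)
  have h2 : ((fun z : G => evn a z s) ⁻¹' {x | evn a x w = 1}).Finite :=
    hw.preimage' (fun c _ => hfib c)
  have h3 : ((fun z : G => evn a z s) ⁻¹' {x | evn a x w = 1}) = Set.univ := by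
    ext z
    simp only [Set.mem_preimage, Set.mem_univ, iff_true]
    exact hsw a z
  rw [h3] at h2
  exact Set.infinite_univ h2

theorem same_laws (h : CofiniteZariski G) (H : Subgroup G) (hH : Infinite H) {n : ℕ}
    (w : FreeGroup (Fin n)) (hw : ∀ b : Fin n → H, FreeGroup.lift b w = 1) (g : Fin n → G) :
    FreeGroup.lift g w = 1 := by
  classical
  have key : ∀ J : Finset (Fin n), ∀ g : Fin n → G, (∀ i, i ∉ J → g i ∈ H) →
      FreeGroup.lift g w = 1 := by
    intro J
    induction J using Finset.induction_on with
    | empty =>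
      intro g hg
      let b : Fin n → H := fun i => ⟨g i, hg i (by simp)⟩
      have h1 : FreeGroup.lift g = H.subtype.comp (FreeGroup.lift b) := by
        ext i; simp [b]
      rw [h1, MonoidHom.comp_apply, hw b, map_one]
    | insert j J hj ih =>
      intro g hg
      have hE : Eqn (fun x => FreeGroup.lift (Function.update g j x) w) :=
        eqn_lift' (fun x i => Function.update g j x i) (fun i => eqn_update g j i) w
      rcases fin_or_all h hE 1 with h1 | h1
      · exfalso
        have h2 : (H : Set G).Finite := by
          refine h1.subset ?_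
          intro x hx
          apply ih
          intro i hi
          by_cases hij : i = j
          · subst hij; simpa using hx
          · rw [Function.update_of_ne hij]
            exact hg i (by simp [hij, hi])
        exact hH.not_finite h2
      · have h2 := h1 (g j)
        rw [Function.update_eq_self] at h2
        exact h2
  exact key Finset.univ g (by simp)

end many

/-- An infinite group with cofinite Zariski topology and with trivial centre. -/
def Reduced (Q : Type u) [Group Q] : Prop :=
  Infinite Q ∧ CofiniteZariski Q ∧ Subgroup.center Q = ⊥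

/-- Let `G` be an infinite nonabelian group with cofinite Zariski topology (a counterexample to Q1).
(1) `G` has prime exponent `p ≥ 5` and finite centre.
(2) Let `a` be noncentral and `w` a word in two letters. Then `x ↦ w(a, x)` has finite fibres, or
  `w(y, x) = w(y, 1)` is a law of `G`. If `w` is not a law then `w(a, x) = 1` has finitely many solutions.
(3) The free group of rank two in the variety generated by `G` is infinite; in particular the free
  Burnside group `B(2, p)` is infinite. Let `F` be the free group of the variety with basis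
  `y_1, ..., y_n, x`. If `s` in `F` is not in the subgroup generated by `y_1, ..., y_n`, then
  `y_1, ..., y_n, s` is again the basis of a free group of rank `n + 1` of the variety.
(4) Every infinite subgroup `H` generates the same variety as `G`, the group `H / Z(H)` is infinite with
  cofinite Zariski topology and trivial centre, and `H` contains a finitely generated infinite subgroup (to
  which the same applies). -/
theorem result (G : Type u) [Group G] [Infinite G] (hC : CofiniteZariski G)
    (hab : ∃ a b : G, a * b ≠ b * a) :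
    (∃ p : ℕ, p.Prime ∧ 5 ≤ p ∧ ∀ x : G, x ^ p = 1) ∧
    Finite (Subgroup.center G) ∧
    (∀ a : G, a ∉ Subgroup.center G → ∀ w : FreeGroup Bool,
      (∀ c : G, {x : G | ev a x w = c}.Finite) ∨ ∀ y x : G, ev y x w = ev y 1 w) ∧
    (∀ a : G, a ∉ Subgroup.center G → ∀ w : FreeGroup Bool, w ∉ Laws G →
      {x : G | ev a x w = 1}.Finite) ∧
    Infinite (FreeGroup Bool ⧸ Laws G) ∧
    (∀ (n : ℕ) (s w : FreeGroup (Option (Fin n))),
      (∀ (a : Fin n → G) (x : G), evn a (evn a x s) w = 1) →
        (∀ (a : Fin n → G) (x : G), evn a x w = 1) ∨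
          ∀ (a : Fin n → G) (x : G), evn a x s = evn a 1 s) ∧
    (∀ H : Subgroup G, Infinite H → Reduced (H ⧸ Subgroup.center H) ∧
      (∃ S : Finset G, (S : Set G) ⊆ H ∧ Infinite (Subgroup.closure (S : Set G))) ∧
      ∀ (n : ℕ) (w : FreeGroup (Fin n)), (∀ b : Fin n → H, FreeGroup.lift b w = 1) →
        ∀ g : Fin n → G, FreeGroup.lift g w = 1) := by
  obtain ⟨a, b, hne⟩ := hab
  have hg : NC b := fun h => hne (h a)
  have h := hh_of hC
  obtain ⟨p, hp, hp5, he⟩ := prime_five h hg
  have key : ∀ a : G, a ∉ Subgroup.center G → ∀ w : FreeGroup Bool,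
      (∀ c : G, {x : G | ev a x w = c}.Finite) ∨ ∀ y x : G, ev y x w = ev y 1 w := by
    intro a ha w
    by_cases hf : ∀ c : G, {x : G | ev a x w = c}.Finite
    · exact Or.inl hf
    · push Not at hf
      obtain ⟨c, hc⟩ := hf
      exact Or.inr (law_of_infinite hC ((nc_iff a).mpr ha) w c hc)
  have key2 : ∀ a : G, a ∉ Subgroup.center G → ∀ w : FreeGroup Bool, w ∉ Laws G →
      {x : G | ev a x w = 1}.Finite := by
    intro a ha w hw
    rcases key a ha w with h1 | h1
    · exact h1 1
    · by_contra hinf
      apply hw
      rw [mem_laws]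
      have ha' := (nc_iff a).mpr ha
      have hall : ∀ x, ev a x w = 1 := (fin_or_all hC (eqn_ev_right a w) 1).resolve_left hinf
      obtain ⟨k, hk⟩ := ev_one (G := G) w
      have hpf : Fact p.Prime := ⟨hp⟩
      have hord : orderOf a = p := by
        refine orderOf_eq_prime (he a) ?_
        intro h2
        exact ha' (fun x => by rw [h2]; simp)
      have h3 : a ^ k = 1 := by rw [← hk a]; exact hall 1
      have h4 : (p : ℤ) ∣ k := by rw [← hord]; exact orderOf_dvd_iff_zpow_eq_one.mpr h3
      intro y x
      rw [h1, hk y]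
      obtain ⟨m, rfl⟩ := h4
      rw [zpow_mul, zpow_natCast, he y, one_zpow]
  refine ⟨⟨p, hp, hp5, he⟩, center_fin' h hg, key, key2, free_infinite hC hg, ?_,
    fun H hH => ⟨?_, fg_sub h hg H hH, fun n w hw g => same_laws hC H hH w hw g⟩⟩
  · intro n s w hsw
    exact free_ext hC s w hsw
  · obtain ⟨k, hk⟩ := sub_nonab h hg H hH
    have hHz := cz_subgroup hC H
    have hHh := hh_of hHz
    have hc := center_fin' hHh hk
    exact ⟨quot_infinite hc, cz_quot hHz hc, quot_center hHh hk⟩

end Pool.Agent.Results.MP_762844_al.PrimeExponentReduction
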